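import Mathlib

/-!
# Patterns with many scales: the pigeonhole principle for submeasures
-/

set_option autoImplicit false

namespace Pool.Agent.J6H29.QR

open Finset Filter

/-- An upper density (in an abstract sense) on the sets of natural numbers. -/
structure Upper (μ : Set ℕ → ℝ) : Prop where
  mono : ∀ S T : Set ℕ, S ⊆ T → μ S ≤ μ T
  sub : ∀ S T : Set ℕ, μ (S ∪ T) ≤ μ S + μ T
  fin : ∀ S : Set ℕ, S.Finite → μ S = 0
  one : μ Set.univ = 1

namespace Upper

variable {μ : Set ℕ → ℝ}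

theorem one_le (h : Upper μ) {S : Set ℕ} (hS : ∀ᶠ n in atTop, n ∈ S) : 1 ≤ μ S := by
  have h1 : (Sᶜ).Finite := by
    obtain ⟨n, hn⟩ := eventually_atTop.1 hS
    refine (Set.finite_lt_nat n).subset fun x hx => ?_
    by_contra hcon
    exact hx (hn x (not_lt.1 hcon))
  have h2 := h.sub S Sᶜ
  rw [Set.union_compl_self, h.one, h.fin _ h1] at h2
  linarith

theorem biUnion_le (h : Upper μ) {ι : Type*} (s : Finset ι) (T : ι → Set ℕ) :
    μ (⋃ i ∈ s, T i) ≤ ∑ i ∈ s, μ (T i) := by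
  classical
  induction s using Finset.induction_on with
  | empty =>
    simp only [notMem_empty, Set.iUnion_of_empty, Set.iUnion_empty, sum_empty]
    exact (h.fin ∅ Set.finite_empty).le
  | insert a s ha ih =>
    rw [sum_insert ha, Finset.set_biUnion_insert]
    exact (h.sub _ _).trans (by linarith)

/-- Up to a finite set. -/
theorem le_of_eventually (h : Upper μ) {S T : Set ℕ} (hST : ∀ᶠ n in atTop, n ∈ S → n ∈ T) :
    μ S ≤ μ T := by
  have h1 : (S \ T).Finite := by
    obtain ⟨n, hn⟩ := eventually_atTop.1 hST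
    refine (Set.finite_lt_nat n).subset fun x hx => ?_
    by_contra hcon
    exact hx.2 (hn x (not_lt.1 hcon) hx.1)
  have h2 : μ S ≤ μ (T ∪ (S \ T)) := h.mono _ _ (by
    intro x hx
    by_cases hxT : x ∈ T
    · exact Or.inl hxT
    · exact Or.inr ⟨hx, hxT⟩)
  have h3 := h.sub T (S \ T)
  rw [h.fin _ h1] at h3
  linarith

end Upper

variable {ι : Type*}

/-- The property that a set of shifts is a pattern at many scales: `T H p l b` is the set of the
scales, `p` stands for further parameters. -/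
def Good (T : Finset ℕ → ι → ℕ → ℕ → Set ℕ) (c : ℝ) (μ : Set ℕ → ℝ) (H : Finset ℕ) : Prop :=
  ∃ p, ∀ l, ∃ b, c ≤ μ (T H p l b)

/-- Any `K` shifts contain a pattern of `m` shifts, at all large scales. -/
def Base (T : Finset ℕ → ι → ℕ → ℕ → Set ℕ) (m K : ℕ) : Prop :=
  ∀ S : Finset ℕ, K ≤ S.card → ∃ p, ∀ l, ∃ b, ∀ᶠ N : ℕ in atTop, ∃ H ⊆ S, H.card = m ∧
    N ∈ T H p l b

theorem good_exists {T : Finset ℕ → ι → ℕ → ℕ → Set ℕ} {m K : ℕ}
    (hmono : ∀ H p l l' b, l ≤ l' → T H p l' b ⊆ T H p l b) (hB : Base T m K)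
    {μ : Set ℕ → ℝ} (hμ : Upper μ) {S : Finset ℕ} (hS : K ≤ S.card) :
    ∃ H ⊆ S, H.card = m ∧ Good T (1 / 2 ^ K) μ H := by
  classical
  obtain ⟨S', hS', hK⟩ := exists_subset_card_eq hS
  obtain ⟨p, hp⟩ := hB S' hK.ge
  choose b hb using hp
  -- for every `l` a suitable set
  have h1 : ∀ l, ∃ H ∈ S'.powersetCard m, 1 / 2 ^ K ≤ μ (T H p l (b l)) := by
    intro l
    by_contra hcon
    push Not at hcon
    have h2 : 1 ≤ μ (⋃ H ∈ S'.powersetCard m, T H p l (b l)) := by
      apply hμ.one_le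
      filter_upwards [hb l] with N hN
      obtain ⟨H, h3, h4, h5⟩ := hN
      simp only [Set.mem_iUnion]
      exact ⟨H, mem_powersetCard.2 ⟨h3, h4⟩, h5⟩
    have h3 := h2.trans (hμ.biUnion_le _ _)
    have hne : (S'.powersetCard m).Nonempty := by
      rw [nonempty_iff_ne_empty]
      intro h
      rw [h, sum_empty] at h3
      linarith
    have h4 : ∑ H ∈ S'.powersetCard m, μ (T H p l (b l)) <
        ∑ _H ∈ S'.powersetCard m, (1 : ℝ) / 2 ^ K := sum_lt_sum_of_nonempty hne hcon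
    rw [sum_const, nsmul_eq_mul] at h4
    have h5 : ((S'.powersetCard m).card : ℝ) ≤ 2 ^ K := by
      rw [card_powersetCard, hK]
      exact_mod_cast Nat.choose_le_two_pow K m
    have h6 : ((S'.powersetCard m).card : ℝ) * (1 / 2 ^ K) ≤ 1 := by
      rw [mul_one_div, div_le_one (by positivity)]
      exact h5
    linarith
  choose H hH hHμ using h1
  -- one set serves for infinitely many `l`
  obtain ⟨H₀, hH₀, hinf⟩ : ∃ H₀ ∈ S'.powersetCard m, ∀ l, ∃ l' ≥ l, H l' = H₀ := by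
    by_contra hcon
    push Not at hcon
    choose g hg using hcon
    obtain ⟨M, hM⟩ : ∃ M : ℕ, ∀ x (hx : x ∈ S'.powersetCard m), g x hx ≤ M := by
      refine ⟨(S'.powersetCard m).attach.sup fun x => g x.1 x.2, fun x hx => ?_⟩
      exact le_sup (f := fun x : {x // x ∈ S'.powersetCard m} => g x.1 x.2)
        (mem_attach _ ⟨x, hx⟩)
    exact hg (H M) (hH M) M (hM _ (hH M)) rfl
  rw [mem_powersetCard] at hH₀
  refine ⟨H₀, hH₀.1.trans hS', hH₀.2, p, fun l => ?_⟩
  obtain ⟨l', hl', he⟩ := hinf l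
  refine ⟨b l', ?_⟩
  have h2 := hHμ l'
  rw [he] at h2
  exact h2.trans (hμ.mono _ _ (hmono _ _ _ _ _ hl'))

end Pool.Agent.J6H29.QR
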