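import Pool.Agent.J6H29.QR.Abs
import Pool.Agent.R498.MT.QSys

/-!
# Almost prime values of quadratic polynomials: the patterns
-/

set_option autoImplicit false

namespace Pool.Agent.J6H29.QR

open Finset Filter Polynomial

/-- `n ≠ 0` is up to the sign a product of at most `r` primes, counted with multiplicity, all of them at
least `w`. -/
def AlmostPrime (r : ℕ) (w : ℝ) (n : ℤ) : Prop :=
  n ≠ 0 ∧ n.natAbs.primeFactorsList.length ≤ r ∧ ∀ q : ℕ, q.Prime → (q : ℤ) ∣ n → w ≤ q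

/-- The scales `N` for which there is an arithmetic progression `n, n + d, …, n + (l - 1) d` in
`(N, N + lam N ^ (3/4)]` with difference `1 ≤ d ≤ (log N) ^ b` such that for all its terms `x` and all
`h ∈ H`, with `a = x + h`: `A a ^ 2 + B a + C` is a product of at most three primes, all at least
`N ^ (73/400)`, and `f(a)` is a product of at most `r` primes, all at least `N ^ δ`. -/
def Scales (A B C : ℤ) (f : ℤ[X]) (lam : ℝ) (H : Finset ℕ) (p : ℕ × {δ : ℝ // 0 < δ})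
    (l b : ℕ) : Set ℕ :=
  {N | ∃ n d : ℕ, 1 ≤ d ∧ (d : ℝ) ≤ Real.log N ^ b ∧ ∀ j < l, N < n + j * d ∧
    ((n + j * d : ℕ) : ℝ) ≤ N + lam * (N : ℝ) ^ (3 / 4 : ℝ) ∧ ∀ h ∈ H,
      AlmostPrime 3 ((N : ℝ) ^ (73 / 400 : ℝ)) (A * ((n + j * d + h : ℕ) : ℤ) ^ 2 +
        B * ((n + j * d + h : ℕ) : ℤ) + C) ∧
      AlmostPrime p.1 ((N : ℝ) ^ (p.2 : ℝ)) (f.eval ((n + j * d + h : ℕ) : ℤ))}

theorem Scales.mono (A B C : ℤ) (f : ℤ[X]) (lam : ℝ) (H : Finset ℕ)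
    (p : ℕ × {δ : ℝ // 0 < δ}) (l l' b : ℕ) (hl : l ≤ l') :
    Scales A B C f lam H p l' b ⊆ Scales A B C f lam H p l b := by
  rintro N ⟨n, d, h1, h2, h3⟩
  exact ⟨n, d, h1, h2, fun j hj => h3 j (hj.trans_le hl)⟩

theorem Scales.shift (A B C : ℤ) (f : ℤ[X]) (H : Finset ℕ) (t : ℕ)
    (p : ℕ × {δ : ℝ // 0 < δ}) (l b : ℕ) : ∀ᶠ N : ℕ in atTop,
    N ∈ Scales A B C f 1 (H.image (fun x => x + t)) p l b → N ∈ Scales A B C f 2 H p l b := by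
  have h0 : Tendsto (fun N : ℕ => (N : ℝ) ^ (3 / 4 : ℝ)) atTop atTop :=
    (tendsto_rpow_atTop (by norm_num)).comp tendsto_natCast_atTop_atTop
  filter_upwards [h0.eventually_ge_atTop (t : ℝ)] with N hN
  rintro ⟨n, d, h1, h2, h3⟩
  refine ⟨n + t, d, h1, h2, fun j hj => ?_⟩
  obtain ⟨h4, h5, h6⟩ := h3 j hj
  refine ⟨by omega, ?_, fun h hh => ?_⟩
  · have e : ((n + t + j * d : ℕ) : ℝ) = ((n + j * d : ℕ) : ℝ) + t := by push_cast; ring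
    rw [e]
    linarith
  · have h7 := h6 (h + t) (mem_image_of_mem _ hh)
    have e : n + t + j * d + h = n + j * d + (h + t) := by ring
    rw [e]
    exact h7

/-- The conditions on the polynomials. -/
structure Adm (A B C : ℤ) (f : ℤ[X]) : Prop where
  hA : A ≠ 0
  hΔ : ¬ IsSquare (B ^ 2 - 4 * A * C)
  hf : f ≠ 0
  hadm : ∀ p : ℕ, p.Prime → ∃ n : ℤ, ¬ (p : ℤ) ∣ (A * n ^ 2 + B * n + C) * f.eval n

theorem base {A B C : ℤ} {f : ℤ[X]} (h : Adm A B C f) (m : ℕ) :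
    ∃ K, Base (Scales A B C f 1) m K := by
  obtain ⟨K, hK⟩ := Pool.Agent.R498.MT.quad_sys A B C h.hA h.hΔ f h.hf h.hadm m
  obtain ⟨n₀, hn₀⟩ := Pool.Agent.Y677.RSZ.ne_zero_ev f h.hf
  refine ⟨K, fun S hS => ?_⟩
  obtain ⟨r, δ, hδ, hmain⟩ := hK S hS
  refine ⟨(r, ⟨δ, hδ⟩), fun l => ?_⟩
  obtain ⟨b, hb⟩ := hmain l
  refine ⟨b, ?_⟩
  filter_upwards [hb, eventually_ge_atTop n₀] with N hN hN2
  obtain ⟨H, hH, hHc, n, d, h1, h2, h3⟩ := hN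
  refine ⟨H, hH, hHc, n, d, h1, h2, fun j hj => ?_⟩
  obtain ⟨h4, h5, h6⟩ := h3 j hj
  refine ⟨h4, by rw [one_mul]; exact h5, fun x hx => ?_⟩
  obtain ⟨g1, g2, g3, g4⟩ := h6 x hx
  refine ⟨⟨?_, g1, g2⟩, hn₀ _ (by omega), g3, g4⟩
  intro h0
  apply h.hΔ
  refine ⟨2 * A * ((n + j * d + x : ℕ) : ℤ) + B, ?_⟩
  linear_combination (-4 * A) * h0

end Pool.Agent.J6H29.QR
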