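import Pool.Agent.J6H29.QR.Abs
import Pool.Agent.J6H52.Branch.Chains

/-!
# Patterns along all branches of a regular subtree
-/

set_option autoImplicit false

namespace Pool.Agent.J6H29.QR

open Finset Filter Pool.Agent.J6H52.Branch

variable {k : ℕ}

/-- If every infinite set of labels contains a set of `m` labels with the property then almost all
chains of `m` words have it (after `J6H52.Branch.size_exists` of helper52). -/
theorem size_all (hk : 0 < k) {V : Ultrafilter (List (Option (Fin k)))}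
    {U : List (Fin k) → Ultrafilter (List (Fin k))}
    (hV : ∀ᶠ w in (V : Filter (List (Option (Fin k)))), none ∈ w)
    (hcoh : ∀ t s, s ∈ U t → {y | s ∈ U y} ∈ U t)
    (hsub : ∀ t s, s ∈ U t → ∀ b : Fin k, ∀ᶠ w in (V : Filter (List (Option (Fin k)))),
      t ++ w.map (fun o => o.getD b) ∈ s)
    {β : Type} [DecidableEq β] (P : List (Fin k) → β)
    (hfin : ∀ (a : ℕ → Fin k) (f : β), {n : ℕ | P ((List.range n).map a) = f}.Finite)
    (m : ℕ) (Pr : Finset β → Prop)
    (hbase : ∀ X : Set β, X.Infinite → ∃ S : Finset β, (S : Set β) ⊆ X ∧ S.card = m ∧ Pr S) :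
    D U P (fun F => F.card = m ∧ Pr F) m ∅ [] := by
  classical
  by_contra hcon
  have hneg : D U P (fun F => ¬ (F.card = m ∧ Pr F)) m ∅ [] :=
    (dichotomy P (fun F => F.card = m ∧ Pr F) m ∅ []).resolve_left hcon
  obtain ⟨w, hw, h⟩ := chains hV hcoh hsub (fun _ => P)
    (fun _ F => ¬ (F.card = m ∧ Pr F)) (fun _ => m) (fun _ => hneg)
  set J : ℕ → ℕ := fun l => l with hJ
  have hJm : StrictMono J := fun a b hab => hab
  set a : ℕ → Fin k := fun _ => ⟨0, hk⟩ with ha
  have hbr := nd_branch w hw J a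
  obtain ⟨b, hb⟩ := chain_branch hbr
  have hfib : ∀ f, {l | P (nd w J a (l + 1)) = f}.Finite := by
    intro f
    have h1 : {l | P (nd w J a (l + 1)) = f} ⊆
        (fun l => (nd w J a (l + 1)).length) ⁻¹' {n : ℕ | P ((List.range n).map b) = f} := by
      intro l hl
      change P ((List.range (nd w J a (l + 1)).length).map b) = f
      rw [hb]
      exact hl
    refine ((hfin b f).preimage ?_).subset h1
    intro l _ l' _ hll
    have := (chain_length hbr).injective hll
    omega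
  have hXinf : (Set.range (fun l => P (nd w J a (l + 1)))).Infinite := by
    intro hfin'
    have h1 : (Set.univ : Set ℕ) ⊆ ⋃ f ∈ Set.range (fun l => P (nd w J a (l + 1))),
        {l | P (nd w J a (l + 1)) = f} := by
      intro l _
      rw [Set.mem_iUnion₂]
      exact ⟨_, ⟨l, rfl⟩, rfl⟩
    exact Set.infinite_univ ((hfin'.biUnion fun f _ => hfib f).subset h1)
  obtain ⟨S, hS, hSm, hPr⟩ := hbase _ hXinf
  have hS' : ∀ x : S, ∃ l, P (nd w J a (l + 1)) = x := fun x => hS x.2
  choose g hg using hS'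
  have hinj : Function.Injective g := by
    intro x x' hxx
    apply Subtype.ext
    rw [← hg x, ← hg x', hxx]
  set L : Finset ℕ := (univ : Finset S).image (fun x => g x + 1) with hL
  have hLc : L.card = S.card := by
    rw [hL, card_image_of_injective _ (fun x x' hxx => hinj (Nat.succ_injective hxx)), card_univ,
      Fintype.card_coe]
  have hLS : L.image (fun l => P (nd w J a l)) = S := by
    ext x
    rw [hL, mem_image]
    constructor
    · rintro ⟨l, hl, rfl⟩
      obtain ⟨x', _, rfl⟩ := mem_image.1 hl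
      rw [hg x']
      exact x'.2
    · intro hx
      exact ⟨g ⟨x, hx⟩ + 1, mem_image_of_mem _ (mem_univ _), hg ⟨x, hx⟩⟩
  have h1 := h J hJm a 0 (by simp only [hJ]; omega) L (by rw [hLc, hSm]) (by
    intro l hl
    obtain ⟨x', _, rfl⟩ := mem_image.1 hl
    omega)
  rw [hLS] at h1
  exact h1 ⟨hSm, hPr⟩

/-- **Patterns along all branches.** -/
theorem tree {ι : Type*} (T : ℕ → Finset ℕ → ι → ℕ → ℕ → Set ℕ)
    (hmono : ∀ j H p l l' b, l ≤ l' → T j H p l' b ⊆ T j H p l b)
    (K : ℕ → ℕ → ℕ) (hB : ∀ j m, Base (T j) m (K j m)) (hk : 0 < k)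
    (P : ℕ → List (Fin k) → ℕ)
    (hfin : ∀ j (a : ℕ → Fin k) (f : ℕ), {n : ℕ | P j ((List.range n).map a) = f}.Finite)
    (μ : ℕ → Set ℕ → ℝ) (hμ : ∀ j, Upper (μ j)) :
    ∃ w : ℕ → List (Option (Fin k)), (∀ i, none ∈ w i) ∧ ∀ j m : ℕ, ∃ N₀ : ℕ,
      ∀ J : ℕ → ℕ, StrictMono J → N₀ ≤ J 0 → ∀ (a : ℕ → Fin k) (L : Finset ℕ), L.card = m →
        (∀ l ∈ L, 1 ≤ l) → (L.image fun l => P j (nd w J a l)).card = m ∧
          Good (T j) (1 / 2 ^ K j m) (μ j) (L.image fun l => P j (nd w J a l)) := by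
  classical
  obtain ⟨V, U, hV, hcoh, hsub, hext⟩ := exists_ultra hk
  have h1 : ∀ i : ℕ, D U (P (Nat.unpair i).1) (fun F => F.card = (Nat.unpair i).2 ∧
      Good (T (Nat.unpair i).1) (1 / 2 ^ K (Nat.unpair i).1 (Nat.unpair i).2)
        (μ (Nat.unpair i).1) F) (Nat.unpair i).2 ∅ [] := fun i =>
    size_all hk hV hcoh hsub (P (Nat.unpair i).1) (hfin _) _ _ (fun X hX => by
      obtain ⟨S, hS1, hS2⟩ := hX.exists_subset_card_eq (K (Nat.unpair i).1 (Nat.unpair i).2)
      obtain ⟨H, hH1, hH2, hH3⟩ := good_exists (hmono _) (hB _ _) (hμ (Nat.unpair i).1) hS2.ge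
      exact ⟨H, (coe_subset.2 hH1).trans hS1, hH2, hH3⟩)
  obtain ⟨w, hw, h⟩ := chains hV hcoh hsub (fun i => P (Nat.unpair i).1)
    (fun i F => F.card = (Nat.unpair i).2 ∧
      Good (T (Nat.unpair i).1) (1 / 2 ^ K (Nat.unpair i).1 (Nat.unpair i).2)
        (μ (Nat.unpair i).1) F) (fun i => (Nat.unpair i).2) h1
  refine ⟨w, hw, fun j m => ⟨Nat.pair j m, fun J hJ hN a L hL hL1 => ?_⟩⟩
  have h2 := h J hJ a (Nat.pair j m) hN L (by rw [Nat.unpair_pair]; exact hL) hL1
  rw [Nat.unpair_pair] at h2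
  exact h2

end Pool.Agent.J6H29.QR
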