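import Pool.Agent.J6H29.QR.Abs
import Pool.Agent.J6H10.LW.Conv

/-!
# Patterns attached to located words
-/

set_option autoImplicit false

namespace Pool.Agent.J6H29.QR

open Finset Filter Pool.Agent.J6H10.LW Pool.Agent.H752R3.MT

/-- the weight of a word -/
def wt (d : ℕ × ℕ → ℕ) (w : Wc) : ℕ := ∑ t ∈ w, d t

/-- positions -/
def pos (e : ℕ → ℕ) (m : ℕ) : ℕ := ∑ l ∈ range m, e l

/-- the pattern with the distances `e 0, …, e (m-1)` -/
def pat (e : ℕ → ℕ) (m : ℕ) : Finset ℕ := (range (m + 1)).image fun i => pos e i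

/-- the pattern with the distances `e (m-1), …, e 0` -/
def patR (e : ℕ → ℕ) (m : ℕ) : Finset ℕ :=
  (range (m + 1)).image fun i => ∑ l ∈ Ico (m - i) m, e l

theorem pos_succ (e : ℕ → ℕ) (m : ℕ) : pos e (m + 1) = pos e m + e m := by
  unfold pos; rw [sum_range_succ]

theorem pos_mono {e : ℕ → ℕ} (he : ∀ i, 1 ≤ e i) : StrictMono (pos e) :=
  strictMono_nat_of_lt_succ fun m => by
    rw [pos_succ]; have := he m; omega

theorem pos_congr {e e' : ℕ → ℕ} {m : ℕ} (h : ∀ i < m, e i = e' i) : pos e m = pos e' m :=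
  sum_congr rfl fun i hi => h i (mem_range.1 hi)

theorem pat_congr {e e' : ℕ → ℕ} {m : ℕ} (h : ∀ i < m, e i = e' i) : pat e m = pat e' m := by
  unfold pat
  apply image_congr
  intro i hi
  exact pos_congr fun l hl => h l (by have := mem_range.1 (mem_coe.1 hi); omega)

theorem patR_congr {e e' : ℕ → ℕ} {m : ℕ} (h : ∀ i < m, e i = e' i) : patR e m = patR e' m := by
  unfold patR
  apply image_congr
  intro i hi
  exact sum_congr rfl fun l hl => h l (mem_Ico.1 hl).2

/-- A set of positions is, up to a shift, the pattern of the distances of blocks. -/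
theorem blocks (e : ℕ → ℕ) {m : ℕ} {I : Finset ℕ} (hI : I.card = m + 1) :
    ∃ C : ℕ → Finset ℕ, Blk C ∧
      (∃ t, I.image (fun i => pos e i) =
        (pat (fun l => ∑ i ∈ C l, e i) m).image (fun x => x + t)) ∧
      ∀ s, (∀ i ∈ I, pos e i ≤ s) → ∃ t, I.image (fun i => s - pos e i) =
        (patR (fun l => ∑ i ∈ C l, e i) m).image (fun x => x + t) := by
  classical
  obtain ⟨g, -⟩ : ∃ g : Fin (m + 1) ≃o I, True := ⟨I.orderIsoOfFin hI, trivial⟩
  obtain ⟨f, hf⟩ : ∃ f : ℕ → ℕ, ∀ n, f n = if h : n < m + 1 then ((g ⟨n, h⟩ : I) : ℕ)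
      else ((g ⟨m, by omega⟩ : I) : ℕ) + (n - m) := ⟨_, fun _ => rfl⟩
  have hfm : StrictMono f := by
    apply strictMono_nat_of_lt_succ
    intro n
    rw [hf, hf]
    by_cases h1 : n + 1 < m + 1
    · rw [dif_pos h1, dif_pos (by omega)]
      have : (⟨n, by omega⟩ : Fin (m + 1)) < ⟨n + 1, h1⟩ := by
        rw [Fin.lt_def]; simp
      exact_mod_cast g.strictMono this
    · rw [dif_neg h1]
      by_cases h2 : n < m + 1
      · have h3 : n = m := by omega
        subst h3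
        rw [dif_pos (by omega)]
        omega
      · rw [dif_neg h2]
        omega
  have hfI : (range (m + 1)).image f = I := by
    ext x
    rw [mem_image]
    constructor
    · rintro ⟨n, hn, rfl⟩
      rw [hf, dif_pos (mem_range.1 hn)]
      exact (g _).2
    · intro hx
      refine ⟨(g.symm ⟨x, hx⟩ : Fin (m + 1)), mem_range.2 (g.symm ⟨x, hx⟩).2, ?_⟩
      rw [hf, dif_pos (g.symm ⟨x, hx⟩).2]
      simp
  have hC : Blk (fun l => Ico (f l) (f (l + 1))) := by
    refine ⟨fun l => nonempty_Ico.2 (hfm (Nat.lt_succ_self l)), fun l x hx y hy => ?_⟩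
    exact (mem_Ico.1 hx).2.trans_le (mem_Ico.1 hy).1
  have hsum : ∀ n, pos e (f 0) + pos (fun l => ∑ i ∈ Ico (f l) (f (l + 1)), e i) n =
      pos e (f n) := by
    intro n
    induction n with
    | zero => simp [pos]
    | succ n ih =>
      rw [pos_succ, ← add_assoc, ih]
      unfold pos
      rw [range_eq_Ico, range_eq_Ico]
      exact sum_Ico_consecutive _ (Nat.zero_le _) (hfm.monotone (Nat.le_succ n))
  have hsum2 : ∀ i ≤ m, pos e (f (m - i)) + ∑ l ∈ Ico (m - i) m,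
      ∑ i ∈ Ico (f l) (f (l + 1)), e i = pos e (f m) := by
    intro i hi
    have h1 := hsum (m - i)
    have h2 := hsum m
    have h3 : pos (fun l => ∑ i ∈ Ico (f l) (f (l + 1)), e i) (m - i) + ∑ l ∈ Ico (m - i) m,
        ∑ i ∈ Ico (f l) (f (l + 1)), e i =
        pos (fun l => ∑ i ∈ Ico (f l) (f (l + 1)), e i) m := by
      unfold pos
      rw [range_eq_Ico, range_eq_Ico]
      exact sum_Ico_consecutive (fun l => ∑ i ∈ Ico (f l) (f (l + 1)), e i) (Nat.zero_le _)
        (Nat.sub_le m i)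
    omega
  refine ⟨fun l => Ico (f l) (f (l + 1)), hC, ⟨pos e (f 0), ?_⟩, fun s hs => ⟨s - pos e (f m), ?_⟩⟩
  · rw [← hfI, image_image, pat, image_image]
    apply image_congr
    intro n hn
    simp only [Function.comp]
    rw [← hsum n, add_comm]
  · have hms : pos e (f m) ≤ s := hs _ (by
      rw [← hfI]; exact mem_image_of_mem f (mem_range.2 (Nat.lt_succ_self m)))
    rw [← hfI, image_image, patR, image_image]
    ext x
    rw [mem_image, mem_image]
    constructor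
    · rintro ⟨n, hn, rfl⟩
      have hn' := mem_range.1 hn
      refine ⟨m - n, mem_range.2 (by omega), ?_⟩
      have h1 := hsum2 (m - n) (by omega)
      have h2 : m - (m - n) = n := by omega
      simp only [Function.comp]
      rw [h2] at h1 ⊢
      omega
    · rintro ⟨n, hn, rfl⟩
      have hn' := mem_range.1 hn
      refine ⟨m - n, mem_range.2 (by omega), ?_⟩
      have h1 := hsum2 n (by omega)
      simp only [Function.comp]
      omega

theorem wt_pos {d : ℕ × ℕ → ℕ} (hd : ∀ t, 1 ≤ d t) {w : Wc} (hw : w.Nonempty) : 1 ≤ wt d w := by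
  obtain ⟨a, ha⟩ := hw
  exact (hd a).trans (single_le_sum (f := d) (fun _ _ => Nat.zero_le _) ha)

theorem wt_biUnion (d : ℕ × ℕ → ℕ) {Z : ℕ → Wc} (hZ : BW Z) (F : Finset ℕ) :
    wt d (F.biUnion Z) = ∑ i ∈ F, wt d (Z i) := by
  unfold wt
  refine sum_biUnion (fun i _ j _ hij => ?_)
  change Disjoint (Z i) (Z j)
  rw [Finset.disjoint_left]
  intro t ht ht'
  rcases Nat.lt_or_gt_of_ne hij with h | h
  · exact absurd (hZ.lt h t ht t ht') (lt_irrefl _)
  · exact absurd (hZ.lt h t ht' t ht) (lt_irrefl _)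

/-- Shifts. -/
theorem Good.shift {ι : Type*} {T T' : Finset ℕ → ι → ℕ → ℕ → Set ℕ} {c : ℝ} {μ : Set ℕ → ℝ}
    (hμ : Upper μ)
    (hs : ∀ H t p l b, ∀ᶠ N in atTop, N ∈ T (H.image (fun x => x + t)) p l b → N ∈ T' H p l b)
    {H : Finset ℕ} {t : ℕ} (h : Good T c μ (H.image (fun x => x + t))) : Good T' c μ H := by
  obtain ⟨p, h1⟩ := h
  refine ⟨p, fun l => ?_⟩
  obtain ⟨b, hb⟩ := h1 l
  exact ⟨b, hb.trans (hμ.le_of_eventually (hs H t p l b))⟩

/-- Every block sequence has a block sequence of sums with a good pattern, in both directions. -/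
theorem exists_blocks {ι : Type*} {T T' : Finset ℕ → ι → ℕ → ℕ → Set ℕ} {m K : ℕ}
    (hmono : ∀ H p l l' b, l ≤ l' → T H p l' b ⊆ T H p l b) (hB : Base T (m + 1) K)
    {μ : Set ℕ → ℝ} (hμ : Upper μ)
    (hs : ∀ H t p l b, ∀ᶠ N in atTop, N ∈ T (H.image (fun x => x + t)) p l b → N ∈ T' H p l b)
    {e : ℕ → ℕ} (he : ∀ i, 1 ≤ e i) :
    (∃ C : ℕ → Finset ℕ, Blk C ∧ Good T' (1 / 2 ^ K) μ (pat (fun l => ∑ i ∈ C l, e i) m)) ∧
    ∃ C : ℕ → Finset ℕ, Blk C ∧ Good T' (1 / 2 ^ K) μ (patR (fun l => ∑ i ∈ C l, e i) m) := by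
  classical
  have hpm := pos_mono he
  constructor
  · obtain ⟨H, hH, hHc, hg⟩ := good_exists (S := (range K).image (fun i => pos e i)) hmono hB hμ
      (by rw [card_image_of_injective _ hpm.injective, card_range])
    obtain ⟨I, hI⟩ : ∃ I, I = (range K).filter (fun i => pos e i ∈ H) := ⟨_, rfl⟩
    have h1 : I.image (fun i => pos e i) = H := by
      ext x
      rw [hI, mem_image]
      constructor
      · rintro ⟨i, hi, rfl⟩
        exact (mem_filter.1 hi).2
      · intro hx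
        obtain ⟨i, hi, rfl⟩ := mem_image.1 (hH hx)
        exact ⟨i, mem_filter.2 ⟨hi, hx⟩, rfl⟩
    have h2 : I.card = m + 1 := by
      rw [← hHc, ← h1, card_image_of_injective _ hpm.injective]
    obtain ⟨C, hC, ⟨t, ht⟩, -⟩ := blocks e h2
    rw [← h1, ht] at hg
    exact ⟨C, hC, hg.shift hμ hs⟩
  · have hinj : Set.InjOn (fun i => pos e K - pos e i) (range K : Set ℕ) := by
      intro i hi j hj hij
      have h1 := hpm (mem_range.1 (mem_coe.1 hi))
      have h2 := hpm (mem_range.1 (mem_coe.1 hj))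
      simp only at hij
      exact hpm.injective (by omega)
    obtain ⟨H, hH, hHc, hg⟩ := good_exists (S := (range K).image (fun i => pos e K - pos e i))
      hmono hB hμ (by rw [card_image_of_injOn hinj, card_range])
    obtain ⟨I, hI⟩ : ∃ I, I = (range K).filter (fun i => pos e K - pos e i ∈ H) := ⟨_, rfl⟩
    have h1 : I.image (fun i => pos e K - pos e i) = H := by
      ext x
      rw [hI, mem_image]
      constructor
      · rintro ⟨i, hi, rfl⟩
        exact (mem_filter.1 hi).2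
      · intro hx
        obtain ⟨i, hi, rfl⟩ := mem_image.1 (hH hx)
        exact ⟨i, mem_filter.2 ⟨hi, hx⟩, rfl⟩
    have hIs : (I : Set ℕ) ⊆ (range K : Set ℕ) := by
      rw [hI]
      exact coe_subset.2 (filter_subset _ _)
    have h2 : I.card = m + 1 := by
      rw [← hHc, ← h1, card_image_of_injOn (hinj.mono hIs)]
    obtain ⟨C, hC, -, h3⟩ := blocks e h2
    obtain ⟨t, ht⟩ := h3 (pos e K) (fun i hi => by
      rw [hI] at hi
      exact (hpm (mem_range.1 (mem_filter.1 hi).1)).le)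
    rw [← h1, ht] at hg
    exact ⟨C, hC, hg.shift hμ hs⟩

/-- **Patterns attached to located words.** -/
theorem words {ι : Type*} (T T' : ℕ → Finset ℕ → ι → ℕ → ℕ → Set ℕ)
    (hmono : ∀ j H p l l' b, l ≤ l' → T j H p l' b ⊆ T j H p l b)
    (hs : ∀ j H t p l b, ∀ᶠ N in atTop, N ∈ T j (H.image (fun x => x + t)) p l b →
      N ∈ T' j H p l b)
    (K : ℕ → ℕ → ℕ) (hB : ∀ j m, Base (T j) m (K j m))
    (μ : ℕ → Set ℕ → ℝ) (hμ : ∀ j, Upper (μ j))
    (h : ℕ → ℕ) (d : ℕ → ℕ × ℕ → ℕ) (hd : ∀ j t, 1 ≤ d j t) :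
    ∃ (U V : ℕ → Finset ℕ) (κ : ℕ → ℕ), (∀ i, (V i).Nonempty ∧ Disjoint (U i) (V i)) ∧
      (∀ i, ∀ a ∈ U i ∪ V i, ∀ b ∈ U (i + 1) ∪ V (i + 1), a < b) ∧
      ∀ j m : ℕ, ∃ N₀ : ℕ, ∀ (F : ℕ → Finset ℕ) (c : ℕ → ℕ), (∀ i, c i ≤ h i) →
        (∀ l < m, (F l).Nonempty) → (∀ l < m, ∀ i ∈ F l, N₀ ≤ i) →
        (∀ l, l + 1 < m → ∀ i ∈ F l, ∀ i' ∈ F (l + 1), i < i') →
        Good (T' j) (1 / 2 ^ K j (m + 1)) (μ j) (pat (fun l => ∑ i ∈ F l,
          (∑ a ∈ U i, d j (a, κ a) + ∑ a ∈ V i, d j (a, c i))) m) ∧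
        Good (T' j) (1 / 2 ^ K j (m + 1)) (μ j) (patR (fun l => ∑ i ∈ F l,
          (∑ a ∈ U i, d j (a, κ a) + ∑ a ∈ V i, d j (a, c i))) m) := by
  classical
  obtain ⟨pp, hpp⟩ : ∃ pp : ℕ → ℕ → (ℕ → ℕ) → Finset ℕ, ∀ n m e,
    pp n m e = if n = 0 then pat e m else patR e m := ⟨_, fun _ _ _ => rfl⟩
  have hppc : ∀ n m e e', (∀ i < m, e i = e' i) → pp n m e = pp n m e' := by
    intro n m e e' hee
    rw [hpp, hpp, pat_congr hee, patR_congr hee]
  obtain ⟨Q, hQ⟩ : ∃ Q : ℕ → (ℕ → Wc) → Prop, ∀ i Z, Q i Z ↔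
    Good (T' (Nat.unpair (Nat.unpair i).1).1)
      (1 / 2 ^ K (Nat.unpair (Nat.unpair i).1).1 ((Nat.unpair (Nat.unpair i).1).2 + 1))
      (μ (Nat.unpair (Nat.unpair i).1).1)
      (pp (Nat.unpair i).2 (Nat.unpair (Nat.unpair i).1).2
        (fun l => wt (d (Nat.unpair (Nat.unpair i).1).1) (Z l))) := ⟨_, fun _ _ => Iff.rfl⟩
  obtain ⟨U, V, κ, hUV, hlt, hBW, hg⟩ := closed_wd h Q
    (fun i Z hZ hn => ⟨(Nat.unpair (Nat.unpair i).1).2, fun Z' hZ' hZZ hQ' => hn (by
      rw [hQ] at hQ' ⊢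
      rw [hppc _ _ _ (fun l => wt (d (Nat.unpair (Nat.unpair i).1).1) (Z' l))
        (fun l hl => by rw [hZZ l hl])]
      exact hQ')⟩)
    (fun i X hX => by
      have he : ∀ a, 1 ≤ wt (d (Nat.unpair (Nat.unpair i).1).1) (X a) := fun a =>
        wt_pos (hd _) (hX.1 a).1
      obtain ⟨⟨C, hC, h1⟩, ⟨C', hC', h1'⟩⟩ := exists_blocks (hmono _) (hB _ _) (hμ _) (hs _) he
      by_cases h0 : (Nat.unpair i).2 = 0
      · refine ⟨C, hC, ?_⟩
        rw [hQ, hpp, if_pos h0]
        have : (fun l => wt (d (Nat.unpair (Nat.unpair i).1).1) ((C l).biUnion X)) =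
            fun l => ∑ i_1 ∈ C l, wt (d (Nat.unpair (Nat.unpair i).1).1) (X i_1) :=
          funext fun l => wt_biUnion _ hX _
        rw [this]
        exact h1
      · refine ⟨C', hC', ?_⟩
        rw [hQ, hpp, if_neg h0]
        have : (fun l => wt (d (Nat.unpair (Nat.unpair i).1).1) ((C' l).biUnion X)) =
            fun l => ∑ i_1 ∈ C' l, wt (d (Nat.unpair (Nat.unpair i).1).1) (X i_1) :=
          funext fun l => wt_biUnion _ hX _
        rw [this]
        exact h1')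
  refine ⟨U, V, κ, hUV, hlt, fun j m => ⟨max (Nat.pair (Nat.pair j m) 0)
    (Nat.pair (Nat.pair j m) 1), fun F c hc hF1 hF2 hF3 => ?_⟩⟩
  obtain ⟨M, hM⟩ : ∃ M, M = (range m).sup (fun l => (F l).sup id) +
    max (Nat.pair (Nat.pair j m) 0) (Nat.pair (Nat.pair j m) 1) + 1 := ⟨_, rfl⟩
  have hMF : ∀ l < m, ∀ i ∈ F l, i < M := by
    intro l hl i hi
    have h1 : i ≤ (F l).sup id := le_sup (f := id) hi
    have h2 : (F l).sup id ≤ (range m).sup (fun l => (F l).sup id) :=
      le_sup (f := fun l => (F l).sup id) (mem_range.2 hl)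
    omega
  obtain ⟨G, hG⟩ : ∃ G : ℕ → Finset ℕ, ∀ l, G l = if l < m then F l else {M + l} :=
    ⟨_, fun _ => rfl⟩
  have hGB : Blk G := by
    refine ⟨fun l => ?_, fun l x hx y hy => ?_⟩
    · rw [hG]
      split_ifs with hl
      · exact hF1 l hl
      · exact singleton_nonempty _
    · rw [hG] at hx hy
      by_cases h1 : l + 1 < m
      · rw [if_pos (by omega)] at hx
        rw [if_pos h1] at hy
        exact hF3 l h1 x hx y hy
      · rw [if_neg h1, mem_singleton] at hy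
        by_cases h2 : l < m
        · rw [if_pos h2] at hx
          have := hMF l h2 x hx
          omega
        · rw [if_neg h2, mem_singleton] at hx
          omega
  have hG0 : ∀ i ∈ G 0, max (Nat.pair (Nat.pair j m) 0) (Nat.pair (Nat.pair j m) 1) ≤ i := by
    intro i hi
    rw [hG] at hi
    by_cases h1 : 0 < m
    · rw [if_pos h1] at hi
      exact hF2 0 h1 i hi
    · rw [if_neg h1, mem_singleton] at hi
      omega
  have hX : BW (fun i => wd U V κ i (c i)) := hBW c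
  have hwt : ∀ l < m, wt (d j) ((G l).biUnion fun i => wd U V κ i (c i)) = ∑ i ∈ F l,
      (∑ a ∈ U i, d j (a, κ a) + ∑ a ∈ V i, d j (a, c i)) := by
    intro l hl
    rw [wt_biUnion _ hX, hG, if_pos hl]
    exact sum_congr rfl fun i _ => sum_wd (hUV i).2 (c i) (fun t => d j t)
  have key : ∀ n, (n = 0 ∨ n = 1) → Good (T' j) (1 / 2 ^ K j (m + 1)) (μ j) (pp n m (fun l =>
      ∑ i ∈ F l, (∑ a ∈ U i, d j (a, κ a) + ∑ a ∈ V i, d j (a, c i)))) := by
    intro n hn
    have h1 := hg (Nat.pair (Nat.pair j m) n) G c hGB (fun i hi => by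
      have := hG0 i hi
      rcases hn with rfl | rfl
      · exact (le_max_left _ _).trans this
      · exact (le_max_right _ _).trans this) hc
    rw [hQ] at h1
    simp only [Nat.unpair_pair] at h1
    rw [hppc n m _ _ hwt] at h1
    exact h1
  refine ⟨?_, ?_⟩
  · have := key 0 (Or.inl rfl)
    rwa [hpp, if_pos rfl] at this
  · have := key 1 (Or.inr rfl)
    rwa [hpp, if_neg one_ne_zero] at this

end Pool.Agent.J6H29.QR
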